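import Pool.Agent.H88.OP.Sd

/-!
ROW SHa (project MP_17d720_OP, about 110 lines): the first linear dependence of a sequence of vectors.

PROOF. `R = K⟦X⟧` is a domain; `L = FractionRing K⟦X⟧`, `φ = algebraMap R L` injective. `w i = φ ∘ v i : Fin r → L`. The family `w 0, .., w r` (`r + 1` vectors in `L ^ r`) is linearly dependent over `L`, so there is a smallest `r'` such that the family `(w i)_(i < r' + 1)` (`Fin (r' + 1)`) is linearly dependent
(`Nat.find`); `r' ≤ r`; `r' ≥ 1` since `w 0 ≠ 0` (`linearIndependent_unique`/ for `Fin 1`). So `(w i)_(i < r')` is linearly independent (minimality; for `r' - 1`), and `w r'` is in its span (`linearIndependent_fin_succ'` / `Fin.snoc`, `LinearIndependent.fin_cons'`...; or from a dependence relation whose last coefficient cannot vanish):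
`w r' = ∑ i, a i • w i`, `a i ∈ L`.
First claim: a nonzero minor: the rows of the matrix `W = (w i j)_(i < r', j)` over `L` are linearly independent, so its rank is `r'` (`LinearIndependent.rank_matrix`), so the columns span `L ^ r'` (`Matrix.rank_eq_finrank_span_cols`), and there are `r'` columns `J k` forming a linearly independent family (`exists_fun_fin_finrank_span_eq` for the set of the columns, or `Matrix.exists_submatrix..`), so the square matrix
`(w i (J k))` has nonzero determinant (`Matrix.linearIndependent_cols_iff_isUnit`, `Matrix.isUnit_iff_isUnit_det`), which is `φ` of the determinant over `R` (`RingHom.map_det`).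
Second claim, for every `J`: let `PJ = (v i (J k))_(i,k)` over `R`, `δ = det PJ`. From `v r' (J k) = ∑ i, a i * v i (J k)` (in `L`), multiplying by the adjugate: `δ a i = ∑ k, v r' (J k) * adj(PJ) k i =: φ (m i)` (`Matrix.mul_adjugate`: `PJ * adj PJ = δ • 1`). So `φ (δ * v r' j) = ∑ i, (δ a i) φ (v i j) = φ (∑ i, m i * v i j)`, `φ` injective.
-/

set_option autoImplicit false
open scoped Classical

open PowerSeries Pool.Agent.H85.OT

namespace Pool.Agent.H88.OP


variable {K : Type*} [Field K]

theorem Sa_minor {L : Type*} [Field L] {r r' : ℕ} (w : Fin r' → Fin r → L)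
    (h : LinearIndependent L w) :
    ∃ J : Fin r' → Fin r, (Matrix.of fun (i : Fin r') (k : Fin r') => w i (J k)).det ≠ 0 := by
  have hrank : (Matrix.of w).rank = r' := by
    have := LinearIndependent.rank_matrix (M := Matrix.of w) h
    simpa using this
  rw [Matrix.rank_eq_finrank_span_cols] at hrank
  obtain ⟨f, hf1, -, hf3⟩ := Submodule.exists_fun_fin_finrank_span_eq L (Set.range (Matrix.of w).col)
  choose J hJ using hf1
  refine ⟨fun k => J (Fin.cast hrank.symm k), ?_⟩
  have hli : LinearIndependent L
      (Matrix.of fun (i : Fin r') (k : Fin r') => w i (J (Fin.cast hrank.symm k))).col := by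
    have h1 := hf3.comp (Fin.cast hrank.symm) (Fin.cast_injective _)
    have h2 : (Matrix.of fun (i : Fin r') (k : Fin r') => w i (J (Fin.cast hrank.symm k))).col =
        f ∘ Fin.cast hrank.symm := by
      funext k
      exact hJ (Fin.cast hrank.symm k)
    rw [h2]
    exact h1
  rw [Matrix.linearIndependent_cols_iff_isUnit, Matrix.isUnit_iff_isUnit_det] at hli
  exact hli.ne_zero

theorem Sa_span {L : Type*} [Field L] {r : ℕ} (w : ℕ → Fin r → L) (h0 : w 0 ≠ 0) :
    ∃ r' : ℕ, 1 ≤ r' ∧ r' ≤ r ∧ LinearIndependent L (fun i : Fin r' => w i) ∧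
      ∃ a : Fin r' → L, ∑ i, a i • w i = w r' := by
  have hex : ∃ n : ℕ, ¬ LinearIndependent L (fun i : Fin (n + 1) => w i) := by
    refine ⟨r, fun h => ?_⟩
    have := h.fintype_card_le_finrank
    simp at this
  have hspec := Nat.find_spec hex
  set n := Nat.find hex with hn
  have hmin : ∀ m < n, LinearIndependent L (fun i : Fin (m + 1) => w i) := by
    intro m hm
    by_contra hc
    exact Nat.find_min hex hm hc
  have hle : n ≤ r := Nat.find_min' hex (by
    intro h
    have := h.fintype_card_le_finrank
    simp at this)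
  have h1 : 1 ≤ n := by
    rcases Nat.eq_zero_or_pos n with h | h
    · exfalso
      apply hspec
      rw [h]
      haveI : Subsingleton (Fin (0 + 1)) := inferInstanceAs (Subsingleton (Fin 1))
      exact LinearIndependent.of_subsingleton (R := L) (0 : Fin (0 + 1)) h0
    · exact h
  have hli : LinearIndependent L (fun i : Fin n => w i) := by
    obtain ⟨m, hm⟩ : ∃ m, n = m + 1 := ⟨n - 1, by omega⟩
    rw [hm]
    exact hmin m (by omega)
  refine ⟨n, h1, hle, hli, ?_⟩
  rw [linearIndependent_finSucc'] at hspec
  have hmem : w n ∈ Submodule.span L (Set.range (fun i : Fin n => w i)) := by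
    by_contra hc
    exact hspec ⟨hli, hc⟩
  exact (Submodule.mem_span_range_iff_exists_fun L).1 hmem

theorem exists_dep {r : ℕ} (v : ℕ → Fin r → K⟦X⟧) (h0 : v 0 ≠ 0) :
    ∃ r' : ℕ, 1 ≤ r' ∧ r' ≤ r ∧
      (∃ J : Fin r' → Fin r, (Matrix.of fun (i : Fin r') (k : Fin r') => v i (J k)).det ≠ 0) ∧
      ∀ J : Fin r' → Fin r, ∃ m : Fin r' → K⟦X⟧, ∀ j : Fin r,
        (Matrix.of fun (i : Fin r') (k : Fin r') => v i (J k)).det * v r' j =
          ∑ i : Fin r', m i * v i j := by
  obtain ⟨r', h1, h2, hli, a, ha⟩ := Sa_span
    (fun n j => algebraMap K⟦X⟧ (FractionRing K⟦X⟧) (v n j)) (by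
      intro h
      apply h0
      funext j
      have := congrFun h j
      simpa using this)
  have hinj : Function.Injective (algebraMap K⟦X⟧ (FractionRing K⟦X⟧)) :=
    IsFractionRing.injective _ _
  refine ⟨r', h1, h2, ?_, ?_⟩
  · obtain ⟨J, hJ⟩ := Sa_minor _ hli
    refine ⟨J, fun h => hJ ?_⟩
    have h3 := congrArg (algebraMap K⟦X⟧ (FractionRing K⟦X⟧)) h
    rw [RingHom.map_det, map_zero] at h3
    exact h3
  · intro J
    set P : Matrix (Fin r') (Fin r') K⟦X⟧ :=
      Matrix.of fun (i : Fin r') (k : Fin r') => v i (J k) with hP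
    set φ := algebraMap K⟦X⟧ (FractionRing K⟦X⟧) with hφ
    refine ⟨fun i => ∑ k, v r' (J k) * P.adjugate k i, ?_⟩
    have hadj : ∀ i l : Fin r', ∑ k, φ (v i (J k)) * φ (P.adjugate k l) =
        if i = l then φ P.det else 0 := by
      intro i l
      have h4 : (P * P.adjugate) i l = (P.det • (1 : Matrix (Fin r') (Fin r') K⟦X⟧)) i l := by
        rw [Matrix.mul_adjugate]
      rw [Matrix.mul_apply, Matrix.smul_apply, Matrix.one_apply] at h4
      have h5 := congrArg φ h4
      rw [map_sum] at h5
      simp only [map_mul] at h5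
      rw [show (∑ k, φ (v i (J k)) * φ (P.adjugate k l)) =
        ∑ x, φ (P i x) * φ (P.adjugate x l) from rfl, h5]
      split_ifs <;> simp
    have hm : ∀ i : Fin r', φ (∑ k, v r' (J k) * P.adjugate k i) = φ P.det * a i := by
      intro l
      rw [map_sum]
      have h6 : ∀ k, φ (v r' (J k)) = ∑ i, a i * φ (v i (J k)) := by
        intro k
        have := congrFun ha (J k)
        rw [Finset.sum_apply] at this
        simpa using this.symm
      calc ∑ k, φ (v r' (J k) * P.adjugate k l)
          = ∑ k, ∑ i, a i * (φ (v i (J k)) * φ (P.adjugate k l)) := by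
            refine Finset.sum_congr rfl fun k _ => ?_
            rw [map_mul, h6 k, Finset.sum_mul]
            exact Finset.sum_congr rfl fun i _ => by ring
        _ = ∑ i, a i * ∑ k, φ (v i (J k)) * φ (P.adjugate k l) := by
            rw [Finset.sum_comm]
            exact Finset.sum_congr rfl fun i _ => by rw [Finset.mul_sum]
        _ = φ P.det * a l := by
            simp_rw [hadj]
            simp [mul_comm]
    intro j
    apply hinj
    rw [map_mul, map_sum]
    have h7 : φ (v r' j) = ∑ i, a i * φ (v i j) := by
      have := congrFun ha j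
      rw [Finset.sum_apply] at this
      simpa using this.symm
    rw [h7, Finset.mul_sum]
    refine Finset.sum_congr rfl fun i _ => ?_
    rw [map_mul, hm i]
    ring

end Pool.Agent.H88.OP
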