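import Pool.Agent.H88.OP.Sd

/-!
ROW SHb (project MP_17d720_OP, about 100 lines): the regular reduced matrix.

PROOF. For `J' : Fin s → Fin r` let `D J' = (Matrix.of fun i k => P i (J' k)).det`. Among the finitely many `J'` with `D J' ≠ 0` (nonempty by `h`) choose `J` for which the order (the least index of a nonzero coefficient; `PowerSeries.order`, `.toNat`) of `D J` is minimal (`Finset.exists_min_image`, `Set.Finite.exists_minimal..`). `δ = D J`, `e` its order.
`δ = X ^ e * u` with `u` a unit (`PowerSeries.eq_unit_mul..`, `PowerSeries.X_pow_order_dvd`, `PowerSeries.isUnit_iff_constantCoeff`, constant coefficient of `u` = coefficient `e` of `δ` ≠ 0), and `X ^ e ∣ D J'` for all `J'` (trivial if `D J' = 0`, else by minimality, `PowerSeries.X_pow_dvd_iff`). So `δ ∣ D J'` for all `J'`. For `i : Fin s`, `j : Fin r` let `b i j` with `δ * b i j = D (Function.update J i j)`.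
`D (Function.update J i j) = ((PJ).updateCol i (fun i' => P i' j)).det = cramer PJ (col j) i = (adjugate PJ *ᵥ col j) i` (`Matrix.cramer_apply`, `Matrix.cramer_eq_adjugate_mulVec`). So `δ • b = adjugate PJ * P`, and `PJ * (δ • b) = δ • P` (`Matrix.mul_adjugate`), cancel `δ ≠ 0` (domain): `PJ * b = P`.
Third claim: `PJ * (b restricted to the columns J) = PJ`, so multiplying by the adjugate: `δ • (b_J) = δ • 1`, cancel: `b i (J k) = if i = k then 1 else 0`. (Or directly: `Function.update J i (J k)` has two equal columns if `k ≠ i`, and is `J` if `k = i`.)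
-/

set_option autoImplicit false
open scoped Classical

open PowerSeries Pool.Agent.H85.OT

namespace Pool.Agent.H88.OP


variable {K : Type*} [Field K]

theorem exists_b {s r : ℕ} (P : Matrix (Fin s) (Fin r) K⟦X⟧)
    (h : ∃ J : Fin s → Fin r, (Matrix.of fun i k => P i (J k)).det ≠ 0) :
    ∃ (J : Fin s → Fin r) (b : Matrix (Fin s) (Fin r) K⟦X⟧),
      (Matrix.of fun i k => P i (J k)).det ≠ 0 ∧
      (Matrix.of fun i k => P i (J k)) * b = P ∧
      ∀ i k, b i (J k) = if i = k then 1 else 0 := by
  set D : (Fin s → Fin r) → K⟦X⟧ := fun J => (Matrix.of fun i k => P i (J k)).det with hD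
  obtain ⟨J, hJ, hmin⟩ : ∃ J, D J ≠ 0 ∧ ∀ J', D J' ≠ 0 → (D J).order ≤ (D J').order := by
    obtain ⟨J0, h0⟩ := h
    obtain ⟨J, hJ, hm⟩ := Finset.exists_min_image
      (Finset.univ.filter fun J : Fin s → Fin r => D J ≠ 0) (fun J => (D J).order)
      ⟨J0, Finset.mem_filter.2 ⟨Finset.mem_univ _, h0⟩⟩
    exact ⟨J, (Finset.mem_filter.1 hJ).2,
      fun J' h' => hm J' (Finset.mem_filter.2 ⟨Finset.mem_univ _, h'⟩)⟩
  have hdvd : ∀ J', D J ∣ D J' := by
    intro J'
    by_cases h' : D J' = 0
    · rw [h']
      exact dvd_zero _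
    rcases ValuationRing.dvd_total (D J) (D J') with h1 | ⟨c, hc⟩
    · exact h1
    · have h2 := hmin J' h'
      have hc0 : c ≠ 0 := by
        rintro rfl
        exact hJ (by rw [hc, mul_zero])
      rw [hc, PowerSeries.order_mul] at h2
      have h3 : c.order = 0 := by
        have h4 : (D J').order ≠ ⊤ := fun h5 => h' (PowerSeries.order_eq_top.1 h5)
        have h6 : c.order ≠ ⊤ := fun h5 => hc0 (PowerSeries.order_eq_top.1 h5)
        obtain ⟨a, ha⟩ := ENat.ne_top_iff_exists.1 h4
        obtain ⟨b, hb⟩ := ENat.ne_top_iff_exists.1 h6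
        rw [← ha, ← hb] at h2
        rw [← hb]
        have h7 : a + b ≤ a := by exact_mod_cast h2
        have h8 : b = 0 := by omega
        rw [h8]
        rfl
      have h4 : IsUnit c := by
        rw [PowerSeries.isUnit_iff_constantCoeff]
        have h5 : PowerSeries.coeff 0 c ≠ 0 := by
          have h6 := PowerSeries.coeff_order hc0
          rw [h3] at h6
          exact h6
        exact isUnit_iff_ne_zero.2 (by rwa [PowerSeries.coeff_zero_eq_constantCoeff_apply] at h5)
      obtain ⟨u, hu⟩ := h4
      refine ⟨((u⁻¹ : (K⟦X⟧)ˣ) : K⟦X⟧), ?_⟩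
      rw [hc, ← hu, mul_assoc, Units.mul_inv, mul_one]
  choose b hb using fun (i : Fin s) (j : Fin r) => hdvd (Function.update J i j)
  set PJ : Matrix (Fin s) (Fin s) K⟦X⟧ := Matrix.of fun i k => P i (J k) with hPJ
  have hupd : ∀ i j, D (Function.update J i j) = (PJ.adjugate * P) i j := by
    intro i j
    have h1 : (Matrix.of fun i' k => P i' (Function.update J i j k)) =
        PJ.updateCol i (fun i' => P i' j) := by
      ext i' k
      by_cases hk : k = i
      · subst hk
        simp
      · simp [hPJ, hk]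
    have h2 : D (Function.update J i j) = Matrix.cramer PJ (fun i' => P i' j) i := by
      rw [Matrix.cramer_apply, ← h1]
    rw [h2, Matrix.cramer_eq_adjugate_mulVec]
    rfl
  have hb' : D J • (Matrix.of b : Matrix (Fin s) (Fin r) K⟦X⟧) = PJ.adjugate * P := by
    ext1 i j
    rw [← hupd i j, hb i j]
    rfl
  refine ⟨J, Matrix.of b, hJ, ?_, ?_⟩
  · have h1 : D J • (PJ * Matrix.of b) = D J • P := by
      rw [← Matrix.mul_smul, hb', ← Matrix.mul_assoc, Matrix.mul_adjugate, Matrix.smul_mul,
        Matrix.one_mul]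
    ext1 i j
    have h2 := congrFun (congrFun h1 i) j
    exact mul_left_cancel₀ hJ h2
  · intro i k
    have h1 : D J * b i (J k) = D J * (if i = k then 1 else 0) := by
      rw [← hb i (J k)]
      by_cases hik : i = k
      · subst hik
        rw [if_pos rfl, mul_one, Function.update_eq_self]
      · rw [if_neg hik, mul_zero]
        refine Matrix.det_zero_of_column_eq hik (fun l => ?_)
        simp [Function.update_of_ne (Ne.symm hik)]
    exact mul_left_cancel₀ hJ h1

end Pool.Agent.H88.OP
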