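import Pool.Agent.H88.OP.Sd

/-!
ROW SHc (project MP_17d720_OP, about 80 lines): the differential equation of the reduced matrix.

PROOF. `R` is a domain, `PJ = (Matrix.of fun i k => P i (J k))`, `δ = det PJ ≠ 0`, `PJ * b = P`, `b i (J k) = 1` or `0`, and `δ • nb d B P = M' * P` (hypothesis `hM`). `nb d B P = nb d B (PJ * b) = dM d PJ * b + PJ * nb d B b` (`nb_mul`). So `δ • (PJ * nb d B b) = M' * P - δ • (dM d PJ * b) = (M' * PJ - δ • dM d PJ) * b =: N * b` (`P = PJ * b`).
Restrict the columns to `J` (apply both sides at `(i, J k)`): `b` restricted is the identity matrix and `dM d b` restricted is zero (`d 1 = 0`, `d 0 = 0`), so `nb d B b` restricted is `C := (b * B) restricted to J`: `δ • (PJ * C) = N`. Hence `δ • (PJ * nb d B b) = δ • (PJ * C) * b = δ • (PJ * (C * b))`. Cancel `δ` and then `PJ` (multiply by `adjugate PJ` from the left: `adjugate PJ * PJ = δ • 1`, `Matrix.adjugate_mul`, cancel `δ`): `nb d B b = C * b`.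
-/

set_option autoImplicit false
open scoped Classical

open PowerSeries Pool.Agent.H85.OT

namespace Pool.Agent.H88.OP


variable {R : Type*} [CommRing R] [IsDomain R] (d : Dv R)

theorem nb_b {s r : ℕ} (B : Matrix (Fin r) (Fin r) R) (P b : Matrix (Fin s) (Fin r) R)
    (J : Fin s → Fin r) (hδ : (Matrix.of fun i k => P i (J k)).det ≠ 0)
    (hb : (Matrix.of fun i k => P i (J k)) * b = P) (h1 : ∀ i k, b i (J k) = if i = k then 1 else 0)
    (M' : Matrix (Fin s) (Fin s) R)
    (hM : (Matrix.of fun i k => P i (J k)).det • nb d B P = M' * P) :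
    nb d B b = (Matrix.of fun i k => (b * B) i (J k)) * b := by
  set PJ : Matrix (Fin s) (Fin s) R := Matrix.of fun i k => P i (J k) with hPJ
  set C : Matrix (Fin s) (Fin s) R := Matrix.of fun i k => (b * B) i (J k) with hC
  have e1 : PJ.det • (PJ * nb d B b) = (M' * PJ - PJ.det • dM d PJ) * b := by
    have h2 : nb d B P = dM d PJ * b + PJ * nb d B b := by
      rw [← nb_mul, hb]
    rw [h2, smul_add] at hM
    have h3 : M' * P = M' * PJ * b := by rw [Matrix.mul_assoc, hb]
    rw [h3] at hM
    rw [Matrix.sub_mul, Matrix.smul_mul, ← hM]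
    abel
  have hr : ∀ (X : Matrix (Fin s) (Fin r) R) (Y : Matrix (Fin s) (Fin s) R),
      (Matrix.of fun i k => (Y * X) i (J k)) = Y * (Matrix.of fun i k => X i (J k)) := by
    intro X Y
    ext i k
    simp [Matrix.mul_apply]
  have hb1 : (Matrix.of fun i k => b i (J k)) = (1 : Matrix (Fin s) (Fin s) R) := by
    ext i k
    rw [Matrix.of_apply, h1, Matrix.one_apply]
  have hnb : (Matrix.of fun i k => nb d B b i (J k)) = C := by
    ext i k
    have h4 : dM d b i (J k) = 0 := by
      rw [dM_apply, h1]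
      split_ifs
      · exact d.map_one
      · exact d.map_zero
    rw [Matrix.of_apply, nb, Matrix.add_apply, h4, zero_add, hC, Matrix.of_apply]
  have e2 : PJ.det • (PJ * C) = M' * PJ - PJ.det • dM d PJ := by
    have h5 := congrArg (fun X : Matrix (Fin s) (Fin r) R =>
      (Matrix.of fun (i : Fin s) (k : Fin s) => X i (J k))) e1
    beta_reduce at h5
    rw [hr, hb1, Matrix.mul_one] at h5
    rw [← h5, ← hnb, ← hr]
    ext i k
    simp [Matrix.smul_apply]
  have e3 : PJ.det • (PJ * nb d B b) = PJ.det • (PJ * (C * b)) := by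
    rw [e1, ← e2, Matrix.smul_mul, Matrix.mul_assoc]
  have e4 : PJ.det • (PJ.adjugate * (PJ * nb d B b)) =
      PJ.det • (PJ.adjugate * (PJ * (C * b))) := by
    rw [← Matrix.mul_smul, e3, Matrix.mul_smul]
  rw [← Matrix.mul_assoc, ← Matrix.mul_assoc, Matrix.adjugate_mul, Matrix.smul_mul,
    Matrix.smul_mul, Matrix.one_mul, Matrix.one_mul] at e4
  ext i j
  have h6 := congrFun (congrFun e4 i) j
  rw [Matrix.smul_apply, Matrix.smul_apply, Matrix.smul_apply, Matrix.smul_apply, smul_eq_mul,
    smul_eq_mul, smul_eq_mul, smul_eq_mul] at h6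
  exact mul_left_cancel₀ hδ (mul_left_cancel₀ hδ h6)

end Pool.Agent.H88.OP
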