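import Pool.Agent.H85.OT.ZDef

/-!
Definitions for the abstract Shidlovsky lemma (project MP_17d720_OP, block SH); no row. `K` is a field, `d` a derivation of
`K⟦X⟧` (like `c(q) q d/dq`, `c(0) = 1`), `ev : K[X] → K⟦X⟧` a substitution `P ↦ P(t)` with `t` of order one.
-/

set_option autoImplicit false
open scoped Classical

open PowerSeries Pool.Agent.H85.OT

namespace Pool.Agent.H88.OP


/-- The derivation, the substitution and the derivation of the polynomials. -/
structure SD (K : Type*) [Field K] (d : Dv K⟦X⟧) (ev : Polynomial K →+* K⟦X⟧)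
    (dP : Dv (Polynomial K)) (c0 : ℕ) : Prop where
  van : ∀ (s : ℕ) (y : K⟦X⟧), (∀ l < s, PowerSeries.coeff l y = 0) →
    ∀ l < s, PowerSeries.coeff l (d y) = 0
  lead : ∀ (s : ℕ) (y : K⟦X⟧), (∀ l < s, PowerSeries.coeff l y = 0) →
    PowerSeries.coeff s (d y) = s * PowerSeries.coeff s y
  ev_d : ∀ P, ev (dP P) = d (ev P)
  deg : ∀ P, (dP P).natDegree ≤ P.natDegree + c0
  ord : ∀ P, P ≠ 0 → ∃ l ≤ P.natDegree, PowerSeries.coeff l (ev P) ≠ 0

section

variable {R : Type*} [CommRing R] (d : Dv R) {m r : Type*} [Fintype m] [Fintype r]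

/-- The derivation of the entries of a matrix. -/
def dM (M : Matrix m r R) : Matrix m r R := fun i j => d (M i j)

/-- The covariant derivative `d M + M B` of the rows. -/
def nb (B : Matrix r r R) (M : Matrix m r R) : Matrix m r R := dM d M + M * B

/-- The covariant derivatives of a row. -/
def nbi (B : Matrix r r R) (p : r → R) : ℕ → r → R
  | 0 => p
  | n + 1 => fun j => d (nbi B p n j) + ∑ k, nbi B p n k * B k j

theorem dM_apply (M : Matrix m r R) (i : m) (j : r) : dM d M i j = d (M i j) := rfl

theorem dM_mul {k : Type*} [Fintype k] (M : Matrix m r R) (N : Matrix r k R) :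
    dM d (M * N) = dM d M * N + M * dM d N := by
  ext i j
  rw [Matrix.add_apply, Matrix.mul_apply, Matrix.mul_apply, dM_apply, Matrix.mul_apply, d.map_sum,
    ← Finset.sum_add_distrib]
  exact Finset.sum_congr rfl fun k _ => d.map_mul _ _

theorem nb_mul (B : Matrix r r R) (M : Matrix m m R) (N : Matrix m r R) :
    nb d B (M * N) = dM d M * N + M * nb d B N := by
  unfold nb
  rw [dM_mul, Matrix.mul_add, Matrix.mul_assoc, add_assoc]

end

end Pool.Agent.H88.OP
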