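import Pool.Agent.H88.OP.Sd

/-!
ROW SHe (project MP_17d720_OP, about 130 lines): the eigenvalue argument and the order.

PROOF. Let `β = b.mulVec y` (`β i = ∑ j, b i j * y j`), `C = (Matrix.of fun i k => (b * B) i (J k))`. (1) `d (β i) = ∑ j, d (b i j) * y j + ∑ j, b i j * d (y j) = ∑ j, (nb d B b) i j * y j` (`hy`: `d (y j) = ∑ k, B j k * y k`; `nb d B b = dM d b + b * B`) `= ((C * b).mulVec y) i = ∑ k, C i k * β k` (`hnb`).
(2) `β ≠ 0` (`hne`). Let `s'` be the least index such that some `β i` has a nonzero coefficient `s'`; `u i = coeff s' (β i)`, `u ≠ 0`, and all coefficients of index `< s'` of all `β i` vanish. Coefficient `s'` of `d (β i)` is `s' * u i` (`hS.lead`), coefficient `s'` of `C i k * β k` is `C₀ i k * u k`, `C₀ = C.map constantCoeff` (`PowerSeries.coeff_mul`, antidiagonal: all other terms vanish). So `C₀.mulVec u = s' • u`.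
(3) constant terms of `hnb`: `nb d B b = dM d b + b * B`, the constant coefficient of `d z` is `0 * (constant coefficient)` `= 0` (`hS.lead` for `s = 0`), so `b₀ * B₀ = C₀ * b₀` with `b₀ = b.map constantCoeff`, `B₀ = B.map constantCoeff`, and `b₀ i (J k) = if i = k then 1 else 0`. By (2) `det (C₀ - s' • 1) = 0`, so there is a row `x ≠ 0` with `x ᵥ* C₀ = s' • x` (`Matrix.exists_vecMul_eq_zero_iff`, `Matrix.exists_mulVec_eq_zero_iff`).
`x' = x ᵥ* b₀ ≠ 0` (its entry at `J k` is `x k`) and `x' ᵥ* B₀ = x ᵥ* (b₀ * B₀) = x ᵥ* (C₀ * b₀) = s' • x'`. So `det (B₀ - s' • 1) = 0`: `s' ≤ s0` by `hs0`.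
(4) `PJ.mulVec β = P.mulVec y` (`hb`), whose entries have vanishing coefficients of index `< T` (`hT`). So `δ * β i = ((adjugate PJ).mulVec (P.mulVec y)) i` (`Matrix.adjugate_mul`) has vanishing coefficients of index `< T` for all `i`. Let `e` be the least index of a nonzero coefficient of `δ`; `e ≤ E` by `hE`. For the `i` with `u i ≠ 0` the coefficient `e + s'` of `δ * β i` is `coeff e δ * u i ≠ 0` (the other terms of the antidiagonal vanish), so `T ≤ e + s' ≤ E + s0`.
-/

set_option autoImplicit false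
open scoped Classical

open PowerSeries Pool.Agent.H85.OT

namespace Pool.Agent.H88.OP


variable {K : Type*} [Field K] [CharZero K]

theorem Se_mul_low {K : Type*} [Field K] (a z : K⟦X⟧) {n : ℕ}
    (hz : ∀ l < n, PowerSeries.coeff l z = 0) :
    ∀ l < n, PowerSeries.coeff l (a * z) = 0 := by
  intro l hl
  rw [PowerSeries.coeff_mul]
  refine Finset.sum_eq_zero fun p hp => ?_
  have h1 := Finset.HasAntidiagonal.mem_antidiagonal.1 hp
  rw [hz p.2 (by omega), mul_zero]

theorem Se_mul_lead {K : Type*} [Field K] (a z : K⟦X⟧) {e n : ℕ}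
    (ha : ∀ l < e, PowerSeries.coeff l a = 0) (hz : ∀ l < n, PowerSeries.coeff l z = 0) :
    PowerSeries.coeff (e + n) (a * z) = PowerSeries.coeff e a * PowerSeries.coeff n z := by
  rw [PowerSeries.coeff_mul]
  rw [Finset.sum_eq_single (e, n)]
  · intro p hp hne
    have h1 := Finset.HasAntidiagonal.mem_antidiagonal.1 hp
    by_cases h2 : p.1 < e
    · rw [ha p.1 h2, zero_mul]
    · have h3 : p.2 < n := by
        by_contra h4
        exact hne (Prod.ext (by simp only; omega) (by simp only; omega))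
      rw [hz p.2 h3, mul_zero]
  · intro h
    exact h (Finset.HasAntidiagonal.mem_antidiagonal.2 rfl) |>.elim

theorem ord_bound {d : Dv K⟦X⟧} (hv : ∀ (s : ℕ) (y : K⟦X⟧), (∀ l < s, PowerSeries.coeff l y = 0) →
      ∀ l < s, PowerSeries.coeff l (d y) = 0)
    (hl : ∀ (s : ℕ) (y : K⟦X⟧), (∀ l < s, PowerSeries.coeff l y = 0) →
      PowerSeries.coeff s (d y) = s * PowerSeries.coeff s y)
    {s r : ℕ} (B : Matrix (Fin r) (Fin r) K⟦X⟧) (y : Fin r → K⟦X⟧)
    (hy : ∀ j, d (y j) = ∑ k, B j k * y k) {s0 : ℕ}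
    (hs0 : ∀ n : ℕ, (B.map (PowerSeries.constantCoeff (R := K)) -
      ((n : K) • (1 : Matrix (Fin r) (Fin r) K))).det = 0 → n ≤ s0)
    (P b : Matrix (Fin s) (Fin r) K⟦X⟧) (J : Fin s → Fin r)
    (hb : (Matrix.of fun i k => P i (J k)) * b = P) (h1 : ∀ i k, b i (J k) = if i = k then 1 else 0)
    (hnb : nb d B b = (Matrix.of fun i k => (b * B) i (J k)) * b)
    {T E : ℕ} (hT : ∀ i, ∀ l < T, PowerSeries.coeff l (∑ j, P i j * y j) = 0)
    (hne : ∃ i, ∑ j, P i j * y j ≠ 0)
    (hE : ∃ l ≤ E, PowerSeries.coeff l (Matrix.of fun i k => P i (J k)).det ≠ 0) :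
    T ≤ E + s0 := by
  set PJ : Matrix (Fin s) (Fin s) K⟦X⟧ := Matrix.of fun i k => P i (J k) with hPJ
  set C : Matrix (Fin s) (Fin s) K⟦X⟧ := Matrix.of fun i k => (b * B) i (J k) with hC
  set β : Fin s → K⟦X⟧ := b.mulVec y with hβ
  have hdy : (fun j => d (y j)) = B.mulVec y := funext fun j => hy j
  have hPy : P.mulVec y = PJ.mulVec β := by
    rw [hβ, Matrix.mulVec_mulVec, hb]
  -- the differential system
  have hd : ∀ i, d (β i) = ∑ k, C i k * β k := by
    intro i
    have h2 : (fun i => d (β i)) = (nb d B b).mulVec y := by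
      unfold nb
      rw [Matrix.add_mulVec, ← Matrix.mulVec_mulVec, ← hdy]
      funext i
      rw [Pi.add_apply, hβ]
      simp only [Matrix.mulVec, dotProduct]
      rw [d.map_sum, ← Finset.sum_add_distrib]
      exact Finset.sum_congr rfl fun j _ => d.map_mul _ _
    rw [hnb, ← Matrix.mulVec_mulVec, ← hβ] at h2
    exact congrFun h2 i
  -- the least index
  have hex : ∃ l : ℕ, ∃ i, PowerSeries.coeff l (β i) ≠ 0 := by
    by_contra hc
    push Not at hc
    have h0 : β = 0 := by
      funext i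
      ext l
      rw [hc l i]
      simp
    obtain ⟨i, hi⟩ := hne
    apply hi
    have h3 := congrFun hPy i
    rw [h0, Matrix.mulVec_zero] at h3
    exact h3
  obtain ⟨S, ⟨i0, hi0⟩, hmin⟩ : ∃ S : ℕ, (∃ i, PowerSeries.coeff S (β i) ≠ 0) ∧
      ∀ i, ∀ l < S, PowerSeries.coeff l (β i) = 0 := by
    refine ⟨Nat.find hex, Nat.find_spec hex, fun i l hl => ?_⟩
    by_contra hc
    exact Nat.find_min hex hl ⟨i, hc⟩
  set u : Fin s → K := fun i => PowerSeries.coeff S (β i) with hu
  have hu0 : u ≠ 0 := fun h => hi0 (congrFun h i0)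
  set C0 : Matrix (Fin s) (Fin s) K := C.map (PowerSeries.constantCoeff (R := K)) with hC0
  set b0 : Matrix (Fin s) (Fin r) K := b.map (PowerSeries.constantCoeff (R := K)) with hb0
  set B0 : Matrix (Fin r) (Fin r) K := B.map (PowerSeries.constantCoeff (R := K)) with hB0
  have hCu : C0.mulVec u = (S : K) • u := by
    funext i
    have h4 := hl S (β i) (hmin i)
    rw [hd i, map_sum] at h4
    rw [Pi.smul_apply, smul_eq_mul]
    change ∑ k, C0 i k * u k = (S : K) * u i
    rw [hu]
    simp only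
    rw [← h4]
    refine Finset.sum_congr rfl fun k _ => ?_
    have h5 := Se_mul_lead (e := 0) (C i k) (β k) (fun l hl => absurd hl (Nat.not_lt_zero _)) (hmin k)
    rw [zero_add, PowerSeries.coeff_zero_eq_constantCoeff_apply] at h5
    rw [h5]
    rfl
  have hbB : b0 * B0 = C0 * b0 := by
    ext i j
    have h6 := congrFun (congrFun hnb i) j
    have h7 := congrArg (PowerSeries.constantCoeff (R := K)) h6
    rw [nb, Matrix.add_apply, map_add, dM_apply] at h7
    have h8 := hl 0 (b i j) (fun l hl => absurd hl (Nat.not_lt_zero _))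
    rw [Nat.cast_zero, zero_mul, PowerSeries.coeff_zero_eq_constantCoeff_apply] at h8
    rw [h8, zero_add, Matrix.mul_apply, Matrix.mul_apply, map_sum, map_sum] at h7
    simp only [map_mul] at h7
    rw [Matrix.mul_apply, Matrix.mul_apply]
    exact h7
  have hdC : (C0 - (S : K) • (1 : Matrix (Fin s) (Fin s) K)).det = 0 := by
    rw [← Matrix.exists_mulVec_eq_zero_iff]
    refine ⟨u, hu0, ?_⟩
    rw [Matrix.sub_mulVec, hCu, Matrix.smul_mulVec, Matrix.one_mulVec, sub_self]
  obtain ⟨x, hx0, hx⟩ := Matrix.exists_vecMul_eq_zero_iff.2 hdC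
  have hxC : Matrix.vecMul x C0 = (S : K) • x := by
    rw [Matrix.vecMul_sub, Matrix.vecMul_smul, Matrix.vecMul_one, sub_eq_zero] at hx
    exact hx
  have hS0 : S ≤ s0 := by
    apply hs0
    rw [← Matrix.exists_vecMul_eq_zero_iff]
    refine ⟨Matrix.vecMul x b0, ?_, ?_⟩
    · intro h
      apply hx0
      funext k
      have h9 := congrFun h (J k)
      have h10 : Matrix.vecMul x b0 (J k) = x k := by
        change ∑ i, x i * b0 i (J k) = x k
        rw [Finset.sum_eq_single k]
        · rw [hb0, Matrix.map_apply, h1, if_pos rfl, map_one, mul_one]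
        · intro i _ hik
          rw [hb0, Matrix.map_apply, h1, if_neg hik, map_zero, mul_zero]
        · intro hk
          exact absurd (Finset.mem_univ _) hk
      rw [← h10, h9]
      rfl
    · rw [Matrix.vecMul_sub, Matrix.vecMul_vecMul, hbB, ← Matrix.vecMul_vecMul, hxC,
        Matrix.vecMul_smul, Matrix.vecMul_one, Matrix.smul_vecMul, sub_self]
  -- the order
  obtain ⟨e, heE, he, hemin⟩ : ∃ e ≤ E, PowerSeries.coeff e PJ.det ≠ 0 ∧
      ∀ l < e, PowerSeries.coeff l PJ.det = 0 := by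
    obtain ⟨l, hlE, hlne⟩ := hE
    have hex2 : ∃ l : ℕ, PowerSeries.coeff l PJ.det ≠ 0 := ⟨l, hlne⟩
    refine ⟨Nat.find hex2, (Nat.find_min' hex2 hlne).trans hlE, Nat.find_spec hex2, fun l hl => ?_⟩
    by_contra hc
    exact Nat.find_min hex2 hl hc
  have hδ : PJ.det * β i0 = ∑ k, PJ.adjugate i0 k * ∑ j, P k j * y j := by
    have h11 : PJ.adjugate.mulVec (P.mulVec y) = PJ.det • β := by
      rw [hPy, Matrix.mulVec_mulVec, Matrix.adjugate_mul, Matrix.smul_mulVec, Matrix.one_mulVec]
    have h12 := congrFun h11 i0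
    exact h12.symm
  have hlow : ∀ l < T, PowerSeries.coeff l (PJ.det * β i0) = 0 := by
    intro l hlT
    rw [hδ, map_sum]
    exact Finset.sum_eq_zero fun k _ => Se_mul_low _ _ (hT k) l hlT
  have hlead := Se_mul_lead PJ.det (β i0) hemin (hmin i0)
  have hTe : T ≤ e + S := by
    by_contra hc
    push Not at hc
    rw [hlow _ hc] at hlead
    exact (mul_ne_zero he hi0) hlead.symm
  omega

end Pool.Agent.H88.OP
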