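import Pool.Agent.H88.OP.Sa
import Pool.Agent.H88.OP.Sb
import Pool.Agent.H88.OP.Sc
import Pool.Agent.H88.OP.Se

/-!
ROW SHf (project MP_17d720_OP, about 150 lines): the Shidlovsky lemma.

PROOF. `c' = max c c0`. For polynomials `p : Fin r → K[X]` let `q n = nbi dP B p n` (`nbi` over the ring `K[X]`, so `q 0 = p`, `q (n+1) j = dP (q n j) + ∑ k, q n k * B k j`). (1) `natDegree (q i j) ≤ n + c' i` by induction (`hS.deg`, `Polynomial.natDegree_sum_le_of_forall_le`, `natDegree_mul_le`, `natDegree_add_le`). (2) `v i j = ev (q i j) = nbi d (B.map ev) (ev ∘ p) i j` (`hS.ev_d`).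
(3) `∑ j, v i j * y j = d^[i] R`, `R = ∑ j, ev (p j) * y j`: induction: `d (∑ j, v i j * y j) = ∑ j, d (v i j) * y j + ∑ j, v i j * ∑ k, ev (B j k) * y k = ∑ j, v (i+1) j * y j`. So all the coefficients of index `< T` of `∑ j, v i j * y j` vanish for all `i`, if those of `R` vanish (`hS.van`).
(4) Suppose all coefficients of `R` of index `≤ r * n + C0` vanish, `C0 = c' * r ^ 2 + s0` (so `T = r * n + C0 + 1`), and `R ≠ 0`; contradiction as follows. `v 0 ≠ 0` (else `R = 0`). `exists_dep v` (row SHa) gives `s := r'`, `P i j = v i j` (`i : Fin s`), `exists_b P` (row SHb) gives `J`, `b`. `hM` for `nb_b` (row SHc): `nb d B' P i j = v (i + 1) j` (`B' = B.map ev`); for `i + 1 < s` this is `P (i+1) j`, so row `i` of `M'` is `δ` at `i + 1`; for `i + 1 = s` use the second part of `exists_dep` (row `m`).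
So `M' i = if h : i + 1 < s then Pi.single ⟨i+1, h⟩ δ else m`. `nb_b` gives `hnb`. (5) `s0`: the set of `n : ℕ` with `det (B₀ - n • 1) = 0` is finite: `det (n • 1 - B₀) = charpoly.eval n` (`Matrix.eval_charpoly`/`Matrix.eval_det`), the characteristic polynomial of `B₀ = (B.map ev).map constantCoeff` is monic so not zero, `Polynomial.roots` finite, `Nat.cast` injective (characteristic zero).
(6) `hE` with `E = s * n + c' * s ^ 2`: `δ = det (v i (J k)) = ev (det (q i (J k)))` (`RingHom.map_det`), the polynomial determinant is not zero and has degree `≤ ∑_(i < s) (n + c' i) ≤ s n + c' s ^ 2` (`Polynomial.natDegree_det_le`-type: expand `Matrix.det_apply`, `Polynomial.natDegree_sum_le_of_forall_le`, `natDegree_prod_le`, `natDegree` of a sign times a product), `hS.ord`. (7) `ord_bound` (row SHe): `T ≤ E + s0 ≤ r n + c' r ^ 2 + s0` (`s ≤ r`), contradiction.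
-/

set_option autoImplicit false
open scoped Classical

open PowerSeries Pool.Agent.H85.OT

namespace Pool.Agent.H88.OP


variable {K : Type*} [Field K] [CharZero K]

theorem shidlovsky {d : Dv K⟦X⟧} {ev : Polynomial K →+* K⟦X⟧} {dP : Dv (Polynomial K)} {c0 : ℕ}
    (hS : SD K d ev dP c0) {r c : ℕ} (B : Matrix (Fin r) (Fin r) (Polynomial K))
    (hB : ∀ i j, (B i j).natDegree ≤ c) (y : Fin r → K⟦X⟧)
    (hy : ∀ i, d (y i) = ∑ j, ev (B i j) * y j) :
    ∃ C0 : ℕ, ∀ (n : ℕ) (p : Fin r → Polynomial K), (∀ i, (p i).natDegree ≤ n) →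
      ∑ i, ev (p i) * y i ≠ 0 →
      ∃ l ≤ r * n + C0, PowerSeries.coeff l (∑ i, ev (p i) * y i) ≠ 0 := by
  sorry

end Pool.Agent.H88.OP
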